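import Mathlib
import Pool.Agent.H62.JumpAll

set_option autoImplicit false

namespace Pool.Agent.Results.MP_713846_co.NonJumpFrom200

/-- The conjecture of Erdos fails for every `r ≥ 200`: for every `c > r ^ (-r)` there are `ε > 0` and
`n₀` such that for every `n ≥ n₀` some `r`-uniform hypergraph on `n` vertices with at least
`(1 + ε) (n / r) ^ r` edges has fewer than `c * |S| ^ r` edges inside every nonempty set `S`. -/
theorem result (r : ℕ) (hr : 200 ≤ r) (c : ℝ) (hc : (1 : ℝ) / (r : ℝ) ^ r < c) :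
    ∃ ε : ℝ, 0 < ε ∧ ∃ n₀ : ℕ, ∀ n : ℕ, n₀ ≤ n → ∃ H : Finset (Finset (Fin n)),
      (∀ e ∈ H, e.card = r) ∧ (1 + ε) * ((n : ℝ) / r) ^ r ≤ (H.card : ℝ) ∧
      ∀ S : Finset (Fin n), S.Nonempty →
        ((H.filter (fun e => e ⊆ S)).card : ℝ) < c * (S.card : ℝ) ^ r :=
  Pool.Agent.H62.JumpAll.nonjump r hr c hc

end Pool.Agent.Results.MP_713846_co.NonJumpFrom200
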